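import Pool.Agent.H83.FD.TargetsB

/-! Row CNK: local constancy of a piece on its planks. -/

set_option autoImplicit false

namespace Pool.Agent.H78.FD

open Pool.Agent.H83.G Pool.Agent.H83.FD MeasureTheory Set
open scoped ENNReal NNReal RealInnerProductSpace

theorem sR_pos {R : ℝ} (hR : 1 ≤ R) : 0 < sR R := by
  unfold sR
  have : 0 < Real.sqrt R := Real.sqrt_pos.2 (by linarith)
  positivity

theorem sR_le_one {R : ℝ} (hR : 1 ≤ R) : sR R ≤ 1 := by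
  unfold sR
  have h1 : 1 ≤ Real.sqrt R := by
    rw [Real.one_le_sqrt]
    exact hR
  exact inv_le_one_of_one_le₀ h1

theorem sR_sq {R : ℝ} (hR : 1 ≤ R) : sR R ^ 2 = R⁻¹ := by
  unfold sR
  rw [inv_pow, Real.sq_sqrt (by linarith)]

/-- the support of the rescaled piece -/
theorem supp_bound {m : ℕ} (hLOA : T_LOA) {β : E m → ℂ} (hβ : IsPU β) {R : ℝ} (hR : 1 ≤ R)
    {G : Z m → ℂ} (hG : ∀ ζ, G ζ ≠ 0 → ζ ∈ Rg m (1 / 2) R⁻¹) (c : E m) (ζ : Z m)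
    (h : cp β c (sR R) (Ld c (sR R) ζ) * G (Ld c (sR R) ζ) ≠ 0) : ‖ζ‖ ≤ 6 := by
  have hs := sR_pos hR
  have h1 := left_ne_zero_of_mul h
  have h2 := hG _ (right_ne_zero_of_mul h)
  obtain ⟨a1, a2, a3, a4⟩ := h2
  have e0 : (Ld c (sR R) ζ).1 = ζ.1 := rfl
  rw [e0] at a1 a2
  have hz : 0 < ζ.1 := by linarith
  obtain ⟨-, -, -, -, -, hL⟩ := hLOA m
  obtain ⟨b1, b2, b3⟩ := hL c (sR R) ζ hz.ne'
  have h3 : ‖ζ.1⁻¹ • ζ.2.1‖ < 1 := by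
    by_contra hcon
    push Not at hcon
    apply h1
    unfold cp
    refine hβ.2.1 _ ?_
    rw [b2, smul_smul, inv_mul_cancel₀ hs.ne', one_smul]
    exact hcon
  rw [norm_smul, norm_inv, Real.norm_of_nonneg hz.le, inv_mul_lt_iff₀ hz, mul_one] at h3
  rw [b3, ← sR_sq hR, abs_mul, abs_of_nonneg (by positivity)] at a4
  have h4 : |ζ.2.2 - ‖ζ.2.1‖ ^ 2 / ζ.1| ≤ 3 / 2 := by
    have h5 : 0 < sR R ^ 2 := by positivity
    have h6 : sR R ^ 2 * |ζ.2.2 - ‖ζ.2.1‖ ^ 2 / ζ.1| ≤ sR R ^ 2 * (3 / 2) := by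
      linarith
    exact le_of_mul_le_mul_left h6 h5
  have h5 : ‖ζ.2.1‖ ^ 2 / ζ.1 ≤ ζ.1 := by
    rw [div_le_iff₀ hz]
    nlinarith [norm_nonneg ζ.2.1]
  have h6 : 0 ≤ ‖ζ.2.1‖ ^ 2 / ζ.1 := by positivity
  have h7 := abs_le.1 h4
  rw [Prod.norm_def, Prod.norm_def]
  refine max_le ?_ (max_le ?_ ?_)
  · rw [Real.norm_of_nonneg hz.le]
    linarith
  · linarith
  · rw [Real.norm_eq_abs, abs_le]
    constructor
    · linarith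
    · linarith

theorem pf_CNK (hLOA : T_LOA) (hLOI : T_LOI) (hSCL : T_SCL) (hLCN : T_LCN) (hCPS : T_CPS) :
    T_CNK := by
  intro m M β hβ
  obtain ⟨C, hC⟩ := hLCN m M 6 2 (by norm_num)
  refine ⟨C, ?_⟩
  intro R G c hR hTG hG z
  have hs := sR_pos hR
  obtain ⟨s, hse⟩ : ∃ s, s = sR R := ⟨_, rfl⟩
  have hTH : TC (fun ζ => cp β c s ζ * G ζ) := by
    refine hCPS m β c s G hβ.1 (by rw [hse]; exact hs) hTG ?_
    intro ζ hζ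
    have := (hG ζ hζ).1
    linarith
  obtain ⟨hT', hsc⟩ := hSCL m c s _ (by rw [hse]; exact hs) hTH
  have hsupp : ∀ ζ, (fun ζ => (fun ζ => cp β c s ζ * G ζ) (Ld c s ζ)) ζ ≠ 0 → ‖ζ‖ ≤ 6 := by
    intro ζ hζ
    rw [hse] at hζ
    exact supp_bound hLOA hβ hR hG c ζ hζ
  have h1 := hC _ hT' hsupp (Lo c s z)
  rw [← hse]
  rw [← hse] at hs
  obtain ⟨F, hF⟩ : ∃ F : Z m → ℂ, F = TF (fun ζ => (fun ζ => cp β c s ζ * G ζ) (Ld c s ζ)) :=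
    ⟨_, rfl⟩
  rw [← hF] at h1
  have hTP : ∀ z', TP β c s G z' = ((s ^ (m + 2) : ℝ) : ℂ) * F (Lo c s z') := by
    intro z'
    rw [hF]
    exact hsc z'
  obtain ⟨q, hq⟩ : ∃ q, q = ENNReal.ofReal (s ^ (m + 2)) := ⟨_, rfl⟩
  have hqt : q ≠ ⊤ := by rw [hq]; exact ENNReal.ofReal_ne_top
  have hen : ∀ z', ‖TP β c s G z'‖ₑ ^ 2 = q ^ 2 * ‖F (Lo c s z')‖ₑ ^ 2 := by
    intro z'
    rw [hTP, enorm_mul, mul_pow, hq]
    congr 2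
    rw [← ofReal_norm, Complex.norm_real, Real.norm_of_nonneg (by positivity)]
  obtain ⟨Φ, hΦ⟩ : ∃ Φ : Z m → ℝ≥0∞, Φ = fun w' => ‖F w'‖ₑ ^ 2 *
    ENNReal.ofReal (wt M (Lo c s z - w')) := ⟨_, rfl⟩
  have h2 : ‖F (Lo c s z)‖ₑ ^ 2 ≤ C * ∫⁻ w', Φ w' := by
    simp only [ENNReal.rpow_two] at h1
    rw [hΦ]
    exact h1
  have h3 : ∫⁻ w', Φ w' = q * ∫⁻ z', Φ (Lo c s z') := by
    rw [(hLOI m c s hs).1 Φ, ← mul_assoc, hq, ← ENNReal.ofReal_mul (by positivity), ← mul_pow,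
      mul_inv_cancel₀ hs.ne', one_pow, ENNReal.ofReal_one, one_mul]
  have h4 : ∀ z', q ^ 2 * Φ (Lo c s z') = ‖TP β c s G z'‖ₑ ^ 2 *
      ENNReal.ofReal (wt M (Lo c s (z - z'))) := by
    intro z'
    rw [hen, hΦ]
    have h5 : Lo c s (z - z') = Lo c s z - Lo c s z' := ((hLOA m).1 c s z z').2.1
    rw [h5, mul_assoc]
  calc ‖TP β c s G z‖ₑ ^ 2 = q ^ 2 * ‖F (Lo c s z)‖ₑ ^ 2 := hen z
    _ ≤ q ^ 2 * (C * ∫⁻ w', Φ w') := by gcongr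
    _ = C * q * (q ^ 2 * ∫⁻ z', Φ (Lo c s z')) := by
        rw [h3]
        ring
    _ = C * q * ∫⁻ z', q ^ 2 * Φ (Lo c s z') := by
        rw [lintegral_const_mul' _ _ (ENNReal.pow_ne_top hqt)]
    _ = C * ENNReal.ofReal (s ^ (m + 2)) * ∫⁻ z', ‖TP β c s G z'‖ₑ ^ 2 *
          ENNReal.ofReal (wt M (Lo c s (z - z'))) := by
        rw [← hq]
        congr 1
        exact lintegral_congr fun z' => h4 z'

end Pool.Agent.H78.FD
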