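import Pool.Agent.H83.FD.TargetsB

/-! Row INX: geometry of the boxes of child and parent. -/

set_option autoImplicit false

namespace Pool.Agent.H78.FD.INXx

open Pool.Agent.H83.G Pool.Agent.H83.FD MeasureTheory Set
open scoped ENNReal NNReal RealInnerProductSpace

section geo

variable {m : ℕ}

/-- the first coordinate in the frame `η` -/
noncomputable def vv (η : E m) (u : Z m) : ℝ := u.1 + ⟪u.2.1, η⟫ + u.2.2 * ‖η‖ ^ 2

/-- the middle coordinate in the frame `η` -/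
noncomputable def yy (η : E m) (u : Z m) : E m := u.2.1 + (2 * u.2.2) • η

theorem vv_shift (η η' : E m) (u : Z m) :
    vv η' u = vv η u + ⟪yy η u, η' - η⟫ + u.2.2 * ‖η' - η‖ ^ 2 := by
  unfold vv yy
  rw [norm_sub_sq_real, inner_add_left, inner_sub_right, inner_smul_left, inner_sub_right,
    real_inner_self_eq_norm_sq, real_inner_comm η' η]
  simp only [conj_trivial]
  ring

theorem yy_shift (η η' : E m) (u : Z m) : yy η' u = yy η u + (2 * u.2.2) • (η' - η) := by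
  unfold yy
  rw [smul_sub]
  abel

theorem St_le {η : E m} {s r R t : ℝ} (hs : 0 < s) (hr : 0 < r) (hR : 0 < R) (u : Z m) :
    ‖St η s r R u‖ ≤ t ↔ |vv η u| ≤ r * t ∧ ‖yy η u‖ ≤ R * s * t ∧ |u.2.2| ≤ R * t := by
  have e1 : (St η s r R u).1 = r⁻¹ * vv η u := rfl
  have e2 : (St η s r R u).2.1 = (R * s ^ 2)⁻¹ • (s • yy η u) := rfl
  have e3 : (St η s r R u).2.2 = (R * s ^ 2)⁻¹ * (s ^ 2 * u.2.2) := rfl
  have e4 : (R * s ^ 2)⁻¹ * s = (R * s)⁻¹ := by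
    field_simp
  have e5 : (R * s ^ 2)⁻¹ * (s ^ 2 * u.2.2) = R⁻¹ * u.2.2 := by
    field_simp
  rw [Prod.norm_def, Prod.norm_def, max_le_iff, max_le_iff, e1, e2, e3, e5, smul_smul, e4,
    norm_smul, Real.norm_eq_abs, Real.norm_eq_abs, Real.norm_eq_abs, abs_mul, abs_mul,
    abs_of_pos (inv_pos.2 hr), abs_of_pos (inv_pos.2 (mul_pos hR hs)), abs_of_pos (inv_pos.2 hR),
    inv_mul_le_iff₀ hr, inv_mul_le_iff₀ (mul_pos hR hs), inv_mul_le_iff₀ hR]

theorem Lo_le {c : E m} {σ t : ℝ} (hσ : 0 < σ) (u : Z m) :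
    ‖Lo c σ u‖ ≤ t ↔ |vv c u| ≤ t ∧ σ * ‖yy c u‖ ≤ t ∧ σ ^ 2 * |u.2.2| ≤ t := by
  have e1 : (Lo c σ u).1 = vv c u := rfl
  have e2 : (Lo c σ u).2.1 = σ • yy c u := rfl
  have e3 : (Lo c σ u).2.2 = σ ^ 2 * u.2.2 := rfl
  rw [Prod.norm_def, Prod.norm_def, max_le_iff, max_le_iff, e1, e2, e3, norm_smul,
    Real.norm_eq_abs, Real.norm_eq_abs, Real.norm_eq_abs, abs_mul, abs_of_pos hσ,
    abs_of_pos (pow_pos hσ 2)]

/-- change of the frame -/
theorem shift_bound {η η' : E m} {a y w δ : ℝ} (u : Z m) (h1 : |vv η u| ≤ a)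
    (h2 : ‖yy η u‖ ≤ y) (h3 : |u.2.2| ≤ w) (hd : ‖η' - η‖ ≤ δ) :
    |vv η' u| ≤ a + y * δ + w * δ ^ 2 ∧ ‖yy η' u‖ ≤ y + 2 * w * δ := by
  have hy0 : 0 ≤ y := (norm_nonneg _).trans h2
  have hw0 : 0 ≤ w := (abs_nonneg _).trans h3
  have hδ0 : 0 ≤ δ := (norm_nonneg _).trans hd
  constructor
  · rw [vv_shift η η' u]
    have k1 : |⟪yy η u, η' - η⟫| ≤ y * δ :=
      (abs_real_inner_le_norm _ _).trans (mul_le_mul h2 hd (norm_nonneg _) hy0)
    have k2 : |u.2.2 * ‖η' - η‖ ^ 2| ≤ w * δ ^ 2 := by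
      rw [abs_mul, abs_of_nonneg (by positivity : (0 : ℝ) ≤ ‖η' - η‖ ^ 2)]
      exact mul_le_mul h3 (pow_le_pow_left₀ (norm_nonneg _) hd 2) (by positivity) hw0
    calc |vv η u + ⟪yy η u, η' - η⟫ + u.2.2 * ‖η' - η‖ ^ 2|
        ≤ |vv η u + ⟪yy η u, η' - η⟫| + |u.2.2 * ‖η' - η‖ ^ 2| := abs_add_le _ _
      _ ≤ (|vv η u| + |⟪yy η u, η' - η⟫|) + |u.2.2 * ‖η' - η‖ ^ 2| := by
          gcongr
          exact abs_add_le _ _
      _ ≤ a + y * δ + w * δ ^ 2 := by linarith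
  · rw [yy_shift η η' u]
    refine (norm_add_le _ _).trans ?_
    have k3 : ‖(2 * u.2.2) • (η' - η)‖ ≤ 2 * w * δ := by
      rw [norm_smul, Real.norm_eq_abs, abs_mul, abs_two]
      exact mul_le_mul (by linarith) hd (norm_nonneg _) (by positivity)
    linarith

end geo

section int

/-- the weight as an extended number -/
noncomputable def ph1 (k : ℕ) {V : Type*} [NormedAddCommGroup V] (x : V) : ℝ≥0∞ :=
  ENNReal.ofReal (((1 + ‖x‖) ^ k)⁻¹)

theorem ph1_cont (k : ℕ) {V : Type*} [NormedAddCommGroup V] :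
    Continuous (ph1 k : V → ℝ≥0∞) := by
  unfold ph1
  refine ENNReal.continuous_ofReal.comp ?_
  refine Continuous.inv₀ (by fun_prop) ?_
  intro x
  have : 0 < 1 + ‖x‖ := by positivity
  positivity

theorem ph1_fin {V : Type*} [NormedAddCommGroup V] [NormedSpace ℝ V] [FiniteDimensional ℝ V]
    [MeasurableSpace V] [BorelSpace V] (μ : Measure V) [μ.IsAddHaarMeasure] (k : ℕ)
    (hk : Module.finrank ℝ V < k) : ∫⁻ x, ph1 k x ∂μ < ∞ := by
  have h := finite_integral_one_add_norm (μ := μ) (r := (k : ℝ)) (by exact_mod_cast hk)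
  refine lt_of_le_of_lt (le_of_eq ?_) h
  refine lintegral_congr fun x => ?_
  unfold ph1
  congr 1
  rw [Real.rpow_neg (by positivity), Real.rpow_natCast]

theorem ph1_scale {V : Type*} [NormedAddCommGroup V] [NormedSpace ℝ V] [FiniteDimensional ℝ V]
    [MeasurableSpace V] [BorelSpace V] (μ : Measure V) [μ.IsAddHaarMeasure] (k : ℕ) {ρ : ℝ}
    (hρ : 0 < ρ) (x₀ : V) : ∫⁻ x, ph1 k (ρ⁻¹ • (x + x₀)) ∂μ =
      ENNReal.ofReal (ρ ^ Module.finrank ℝ V) * ∫⁻ x, ph1 k x ∂μ := by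
  rw [lintegral_add_right_eq_self (fun x => ph1 k (ρ⁻¹ • x)) x₀]
  have h1 : ∫⁻ x, ph1 k (ρ⁻¹ • x) ∂μ = ∫⁻ x, ph1 k x ∂(Measure.map (fun x => ρ⁻¹ • x) μ) := by
    rw [lintegral_map (ph1_cont k).measurable (measurable_const_smul _)]
  rw [h1, Measure.map_addHaar_smul μ (inv_ne_zero hρ.ne'), lintegral_smul_measure, smul_eq_mul]
  congr 2
  rw [inv_pow, inv_inv, abs_of_pos (pow_pos hρ _)]

theorem core_int (m : ℕ) : ∃ C : ℝ≥0, ∀ (ρ R : ℝ) (A : E m × ℝ → ℝ) (B : ℝ → E m) (w₀ : ℝ),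
    0 < ρ → 0 < R → Continuous A → Continuous B →
    ∫⁻ z : Z m, ph1 2 (z.1 + A z.2) * (ph1 (m + 1) (ρ⁻¹ • (z.2.1 + B z.2.2)) *
      ph1 2 (R⁻¹ • (z.2.2 + w₀))) ≤ C * ENNReal.ofReal (ρ ^ m * R) := by
  obtain ⟨I1, hI1⟩ : ∃ I, I = ∫⁻ x : ℝ, ph1 2 x := ⟨_, rfl⟩
  obtain ⟨I2, hI2⟩ : ∃ I, I = ∫⁻ x : E m, ph1 (m + 1) x := ⟨_, rfl⟩
  have f1 : I1 < ∞ := by
    rw [hI1]
    exact ph1_fin _ 2 (by simp)
  have f2 : I2 < ∞ := by
    rw [hI2]
    exact ph1_fin _ (m + 1) (by simp)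
  refine ⟨(I1 * (I2 * I1)).toNNReal, ?_⟩
  intro ρ R A B w₀ hρ hR hA hB
  have hfin : I1 * (I2 * I1) ≠ ∞ := (ENNReal.mul_lt_top f1 (ENNReal.mul_lt_top f2 f1)).ne
  rw [ENNReal.coe_toNNReal hfin]
  have c1 : Continuous fun z : Z m => ph1 2 (z.1 + A z.2) := (ph1_cont 2).comp (by fun_prop)
  have c2 : Continuous fun q : E m × ℝ => ph1 (m + 1) (ρ⁻¹ • (q.1 + B q.2)) :=
    (ph1_cont (m + 1)).comp (by fun_prop)
  have c3 : Continuous fun w : ℝ => ph1 2 (R⁻¹ • (w + w₀)) := (ph1_cont 2).comp (by fun_prop)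
  have m12 : Measurable fun q : E m × ℝ => ph1 (m + 1) (ρ⁻¹ • (q.1 + B q.2)) *
      ph1 2 (R⁻¹ • (q.2 + w₀)) :=
    c2.measurable.mul (c3.measurable.comp measurable_snd)
  have m1 : Measurable fun z : Z m => ph1 2 (z.1 + A z.2) *
      (ph1 (m + 1) (ρ⁻¹ • (z.2.1 + B z.2.2)) * ph1 2 (R⁻¹ • (z.2.2 + w₀))) :=
    c1.measurable.mul (m12.comp measurable_snd)
  have s1 : ∫⁻ z : Z m, ph1 2 (z.1 + A z.2) * (ph1 (m + 1) (ρ⁻¹ • (z.2.1 + B z.2.2)) *
      ph1 2 (R⁻¹ • (z.2.2 + w₀))) =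
      ∫⁻ q : E m × ℝ, ∫⁻ v : ℝ, ph1 2 (v + A q) * (ph1 (m + 1) (ρ⁻¹ • (q.1 + B q.2)) *
        ph1 2 (R⁻¹ • (q.2 + w₀))) := by
    rw [Measure.volume_eq_prod, lintegral_prod_symm _ m1.aemeasurable]
  have s2 : ∀ q : E m × ℝ, ∫⁻ v : ℝ, ph1 2 (v + A q) * (ph1 (m + 1) (ρ⁻¹ • (q.1 + B q.2)) *
        ph1 2 (R⁻¹ • (q.2 + w₀))) = I1 * (ph1 (m + 1) (ρ⁻¹ • (q.1 + B q.2)) *
        ph1 2 (R⁻¹ • (q.2 + w₀))) := by
    intro q
    have d1 : Continuous fun v : ℝ => ph1 2 (v + A q) := (ph1_cont 2).comp (by fun_prop)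
    rw [lintegral_mul_const _ d1.measurable,
      lintegral_add_right_eq_self (fun v : ℝ => ph1 2 v) (A q), ← hI1]
  have s3 : ∫⁻ q : E m × ℝ, I1 * (ph1 (m + 1) (ρ⁻¹ • (q.1 + B q.2)) *
        ph1 2 (R⁻¹ • (q.2 + w₀))) = I1 * ∫⁻ w : ℝ, ∫⁻ y : E m,
        ph1 (m + 1) (ρ⁻¹ • (y + B w)) * ph1 2 (R⁻¹ • (w + w₀)) := by
    rw [lintegral_const_mul _ m12, Measure.volume_eq_prod, lintegral_prod_symm _ m12.aemeasurable]
  have s4 : ∀ w : ℝ, ∫⁻ y : E m, ph1 (m + 1) (ρ⁻¹ • (y + B w)) * ph1 2 (R⁻¹ • (w + w₀)) =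
      ENNReal.ofReal (ρ ^ m) * I2 * ph1 2 (R⁻¹ • (w + w₀)) := by
    intro w
    have d1 : Continuous fun y : E m => ph1 (m + 1) (ρ⁻¹ • (y + B w)) :=
      (ph1_cont (m + 1)).comp (by fun_prop)
    rw [lintegral_mul_const _ d1.measurable, ph1_scale _ (m + 1) hρ (B w), ← hI2]
    congr 3
    simp
  rw [s1, lintegral_congr s2, s3, lintegral_congr s4,
    lintegral_const_mul' _ _ (ENNReal.mul_ne_top ENNReal.ofReal_ne_top f2.ne),
    ph1_scale _ 2 hR w₀, ← hI1, ENNReal.ofReal_mul (by positivity)]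
  rw [show Module.finrank ℝ ℝ = 1 by simp, pow_one]
  exact le_of_eq (by ring)

end int

section main

variable {m : ℕ}

theorem wt_prod (m : ℕ) {α β x y w : ℝ} (hx : 0 ≤ x) (hy : 0 ≤ y) (hw : 0 ≤ w) (hxβ : x ≤ β)
    (hwα : w ≤ α) (hyy : y ≤ α ∨ y ≤ β) :
    ((1 + α) ^ (m + 3))⁻¹ * ((1 + β) ^ (m + 3))⁻¹ ≤
      ((1 + x) ^ 2)⁻¹ * (((1 + y) ^ (m + 1))⁻¹ * ((1 + w) ^ 2)⁻¹) := by
  have hα : 0 ≤ α := hw.trans hwα
  have hβ : 0 ≤ β := hx.trans hxβ
  rw [← mul_inv, ← mul_inv, ← mul_inv]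
  refine inv_anti₀ (by positivity) ?_
  have h1 : (1 + x) ^ 2 ≤ (1 + β) ^ 2 := pow_le_pow_left₀ (by linarith) (by linarith) 2
  have h2 : (1 + w) ^ 2 ≤ (1 + α) ^ 2 := pow_le_pow_left₀ (by linarith) (by linarith) 2
  have h3 : (1 + α) ^ 2 ≤ (1 + α) ^ (m + 3) := pow_le_pow_right₀ (by linarith) (by omega)
  have h4 : (1 + β) ^ 2 ≤ (1 + β) ^ (m + 3) := pow_le_pow_right₀ (by linarith) (by omega)
  rcases hyy with h | h
  · have h5 : (1 + y) ^ (m + 1) ≤ (1 + α) ^ (m + 1) :=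
      pow_le_pow_left₀ (by linarith) (by linarith) _
    calc (1 + x) ^ 2 * ((1 + y) ^ (m + 1) * (1 + w) ^ 2)
        ≤ (1 + β) ^ (m + 3) * ((1 + α) ^ (m + 1) * (1 + α) ^ 2) := by
          have := h1.trans h4
          gcongr
      _ = (1 + α) ^ (m + 3) * (1 + β) ^ (m + 3) := by ring
  · have h5 : (1 + y) ^ (m + 1) ≤ (1 + β) ^ (m + 1) :=
      pow_le_pow_left₀ (by linarith) (by linarith) _
    calc (1 + x) ^ 2 * ((1 + y) ^ (m + 1) * (1 + w) ^ 2)
        ≤ (1 + β) ^ 2 * ((1 + β) ^ (m + 1) * (1 + α) ^ (m + 3)) := by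
          have := h2.trans h3
          gcongr
      _ = (1 + α) ^ (m + 3) * (1 + β) ^ (m + 3) := by ring

theorem wt_tri (N : ℕ) {K α β p : ℝ} (hK : 1 ≤ K) (hα : 0 ≤ α) (hβ : 0 ≤ β) (hp0 : 0 ≤ p)
    (hp : p ≤ K * α + K * β) :
    ((1 + α) ^ N)⁻¹ * ((1 + β) ^ N)⁻¹ ≤ K ^ N * ((1 + p) ^ N)⁻¹ := by
  have h1 : 1 + p ≤ K * ((1 + α) * (1 + β)) := by
    nlinarith [mul_nonneg hα hβ]
  have h2 : (1 + p) ^ N ≤ K ^ N * ((1 + α) ^ N * (1 + β) ^ N) := by
    rw [← mul_pow, ← mul_pow]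
    exact pow_le_pow_left₀ (by linarith) h1 N
  have h3 : 0 < (1 + α) ^ N * (1 + β) ^ N := by positivity
  have h4 : 0 < (1 + p) ^ N := by positivity
  rw [← mul_inv, ← div_eq_mul_inv, inv_le_comm₀ h3 (by positivity), inv_div,
    div_le_iff₀ (by positivity)]
  linarith

/-- the middle coordinate as a translate -/
noncomputable def Bf (θ : E m) (ζ : Z m) (w : ℝ) : E m := -ζ.2.1 + (2 * (w - ζ.2.2)) • θ

theorem Bf_cont (θ : E m) (ζ : Z m) : Continuous (Bf θ ζ) := by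
  unfold Bf
  fun_prop

theorem yy_sub (θ : E m) (z ζ : Z m) : yy θ (z - ζ) = z.2.1 + Bf θ ζ z.2.2 := by
  unfold yy Bf
  have e1 : (z - ζ).2.1 = z.2.1 - ζ.2.1 := rfl
  have e2 : (z - ζ).2.2 = z.2.2 - ζ.2.2 := rfl
  rw [e1, e2]
  abel

/-- the first coordinate as a translate -/
noncomputable def Af (c : E m) (ζ : Z m) (q : E m × ℝ) : ℝ :=
  -ζ.1 + ⟪q.1 - ζ.2.1, c⟫ + (q.2 - ζ.2.2) * ‖c‖ ^ 2

theorem Af_cont (c : E m) (ζ : Z m) : Continuous (Af c ζ) := by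
  unfold Af
  fun_prop

theorem vv_sub (c : E m) (z ζ : Z m) : vv c (z - ζ) = z.1 + Af c ζ z.2 := by
  unfold vv Af
  have e1 : (z - ζ).1 = z.1 - ζ.1 := rfl
  have e2 : (z - ζ).2.1 = z.2.1 - ζ.2.1 := rfl
  have e3 : (z - ζ).2.2 = z.2.2 - ζ.2.2 := rfl
  rw [e1, e2, e3]
  ring

theorem St_sub {η : E m} {s r R : ℝ} (x y : Z m) :
    ‖St η s r R (x + y)‖ ≤ ‖St η s r R x‖ + ‖St η s r R y‖ := by
  have h : St η s r R (x + y) = St η s r R x + St η s r R y := by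
    have e1 : Lo η s (x + y) = Lo η s x + Lo η s y := by
      unfold Lo
      ext1
      · show (x + y).1 + ⟪(x + y).2.1, η⟫ + (x + y).2.2 * ‖η‖ ^ 2 =
          (x.1 + ⟪x.2.1, η⟫ + x.2.2 * ‖η‖ ^ 2) + (y.1 + ⟪y.2.1, η⟫ + y.2.2 * ‖η‖ ^ 2)
        have a1 : (x + y).1 = x.1 + y.1 := rfl
        have a2 : (x + y).2.1 = x.2.1 + y.2.1 := rfl
        have a3 : (x + y).2.2 = x.2.2 + y.2.2 := rfl
        rw [a1, a2, a3, inner_add_left]
        ring
      · ext1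
        · show s • ((x + y).2.1 + (2 * (x + y).2.2) • η) =
            s • (x.2.1 + (2 * x.2.2) • η) + s • (y.2.1 + (2 * y.2.2) • η)
          have a2 : (x + y).2.1 = x.2.1 + y.2.1 := rfl
          have a3 : (x + y).2.2 = x.2.2 + y.2.2 := rfl
          rw [a2, a3, ← smul_add, mul_add, add_smul]
          congr 1
          abel
        · show s ^ 2 * (x + y).2.2 = s ^ 2 * x.2.2 + s ^ 2 * y.2.2
          have a3 : (x + y).2.2 = x.2.2 + y.2.2 := rfl
          rw [a3]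
          ring
    unfold St
    rw [e1]
    ext1
    · show r⁻¹ * ((Lo η s x).1 + (Lo η s y).1) = r⁻¹ * (Lo η s x).1 + r⁻¹ * (Lo η s y).1
      ring
    · show (R * s ^ 2)⁻¹ • ((Lo η s x).2 + (Lo η s y).2) =
        (R * s ^ 2)⁻¹ • (Lo η s x).2 + (R * s ^ 2)⁻¹ • (Lo η s y).2
      rw [smul_add]
  rw [h]
  exact norm_add_le _ _

theorem pf_INX : T_INX := by
  intro m N D hD
  obtain ⟨C, hC⟩ := core_int m
  obtain ⟨K, hK⟩ : ∃ K : ℝ, K = (1 + D) ^ 2 := ⟨_, rfl⟩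
  have hK1 : 1 ≤ K := by
    rw [hK]
    nlinarith
  refine ⟨(K ^ N).toNNReal * C, ?_⟩
  intro R R₁ s s' r η η' c z₀ z' hR1 hRR hsR hs1 hr hs' hη hc
  have hR : 1 ≤ R := hR1.trans hRR
  have R0 : 0 < R := by linarith
  have R10 : 0 < R₁ := by linarith
  have hq0 : 0 < Real.sqrt R := Real.sqrt_pos.2 R0
  have hqq : Real.sqrt R * Real.sqrt R = R := Real.mul_self_sqrt R0.le
  have hq1 : 0 < Real.sqrt R₁ := Real.sqrt_pos.2 R10
  have hqq1 : Real.sqrt R₁ * Real.sqrt R₁ = R₁ := Real.mul_self_sqrt R10.le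
  have hsR' : 1 ≤ Real.sqrt R₁ * s := by
    unfold sR at hsR
    rwa [inv_le_iff_one_le_mul₀' hq1] at hsR
  have s0 : 0 < s := by
    by_contra hcon
    push Not at hcon
    nlinarith
  have hσ : 0 < sR R := by
    unfold sR
    positivity
  have hσ1 : Real.sqrt R * sR R = 1 := by
    unfold sR
    exact mul_inv_cancel₀ hq0.ne'
  have hs'σ : sR R ≤ s' := by rw [hs']; exact le_max_left _ _
  have s'0 : 0 < s' := lt_of_lt_of_le hσ hs'σ
  have hs's : R₁ * s ≤ R * s' := by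
    have h1 : s * R₁ / R ≤ s' := by rw [hs']; exact le_max_right _ _
    rw [div_le_iff₀ R0] at h1
    linarith
  have hsq : 1 ≤ R₁ * s ^ 2 := by
    have h1 : (Real.sqrt R₁ * s) * (Real.sqrt R₁ * s) = R₁ * s ^ 2 := by
      calc (Real.sqrt R₁ * s) * (Real.sqrt R₁ * s)
          = (Real.sqrt R₁ * Real.sqrt R₁) * s ^ 2 := by ring
        _ = R₁ * s ^ 2 := by rw [hqq1]
    rw [← h1]
    nlinarith
  have r1 : 1 ≤ r := hsq.trans hr
  have r0 : 0 < r := by linarith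
  have hqs' : Real.sqrt R ≤ R * s' := by
    have h1 : Real.sqrt R * 1 ≤ Real.sqrt R * (Real.sqrt R * s') := by
      refine mul_le_mul_of_nonneg_left ?_ hq0.le
      rw [← hσ1]
      exact mul_le_mul_of_nonneg_left hs'σ hq0.le
    rw [← mul_assoc, hqq, mul_one] at h1
    exact h1
  have hRs' : R * s' ^ 2 ≤ r := by
    rcases le_total (sR R) (s * R₁ / R) with h | h
    · rw [max_eq_right h] at hs'
      have h1 : R * s' = s * R₁ := by
        rw [hs']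
        field_simp
      have h2 : s' ≤ s := by
        rw [hs', div_le_iff₀ R0]
        nlinarith
      calc R * s' ^ 2 = (R * s') * s' := by ring
        _ = s * R₁ * s' := by rw [h1]
        _ ≤ s * R₁ * s := mul_le_mul_of_nonneg_left h2 (by positivity)
        _ = R₁ * s ^ 2 := by ring
        _ ≤ r := hr
    · rw [max_eq_left h] at hs'
      have h1 : R * s' ^ 2 = 1 := by
        rw [hs']
        calc R * sR R ^ 2 = Real.sqrt R * Real.sqrt R * sR R ^ 2 :=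
              congrArg (fun x : ℝ => x * sR R ^ 2) hqq.symm
          _ = (Real.sqrt R * sR R) ^ 2 := by ring
          _ = 1 := by rw [hσ1, one_pow]
      rw [h1]
      exact r1
  have hqr : Real.sqrt R * s' ≤ r := by
    have h1 : (Real.sqrt R * s') ^ 2 = R * s' ^ 2 := by
      rw [mul_pow, sq (Real.sqrt R), hqq]
    have h2 : (Real.sqrt R * s') ^ 2 ≤ r ^ 2 := by
      rw [h1]
      nlinarith
    exact le_of_sq_le_sq h2 r0.le
  -- the two comparisons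
  have cmp1 : ∀ u : Z m, ‖St η' s' r R u‖ ≤ K * ‖St η s r R₁ u‖ := by
    intro u
    obtain ⟨t, ht⟩ : ∃ t, t = ‖St η s r R₁ u‖ := ⟨_, rfl⟩
    have t0 : 0 ≤ t := by rw [ht]; exact norm_nonneg _
    obtain ⟨a1, a2, a3⟩ := (St_le s0 r0 R10 u).1 (le_of_eq ht.symm)
    obtain ⟨b1, b2⟩ := shift_bound u a1 a2 a3 hη
    rw [← ht, St_le s'0 r0 R0]
    refine ⟨b1.trans ?_, b2.trans ?_, a3.trans ?_⟩
    · have h1 : R₁ * s * t * (D * s) + R₁ * t * (D * s) ^ 2 = (R₁ * s ^ 2) * ((D + D ^ 2) * t) := by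
        ring
      have h2 : (R₁ * s ^ 2) * ((D + D ^ 2) * t) ≤ r * ((D + D ^ 2) * t) :=
        mul_le_mul_of_nonneg_right hr (by positivity)
      have h3 : r * (K * t) = r * t + r * ((D + D ^ 2) * t) + r * (D * t) := by
        rw [hK]
        ring
      have h4 : 0 ≤ r * (D * t) := by positivity
      linarith
    · have h1 : R₁ * s * t + 2 * (R₁ * t) * (D * s) = (R₁ * s) * ((1 + 2 * D) * t) := by ring
      rw [h1]
      have h2 : (R₁ * s) * ((1 + 2 * D) * t) ≤ (R * s') * ((1 + 2 * D) * t) :=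
        mul_le_mul_of_nonneg_right hs's (by positivity)
      have h3 : (R * s') * ((1 + 2 * D) * t) ≤ (R * s') * (K * t) := by
        refine mul_le_mul_of_nonneg_left ?_ (by positivity)
        refine mul_le_mul_of_nonneg_right ?_ t0
        rw [hK]
        nlinarith
      exact h2.trans h3
    · have h1 : R₁ * t ≤ R * t := mul_le_mul_of_nonneg_right hRR t0
      have h2 : t ≤ K * t := by nlinarith
      exact h1.trans (mul_le_mul_of_nonneg_left h2 R0.le)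
  have cmp2 : ∀ u : Z m, ‖St η' s' r R u‖ ≤ K * ‖Lo c (sR R) u‖ := by
    intro u
    obtain ⟨t, ht⟩ : ∃ t, t = ‖Lo c (sR R) u‖ := ⟨_, rfl⟩
    have t0 : 0 ≤ t := by rw [ht]; exact norm_nonneg _
    obtain ⟨a1, a2, a3⟩ := (Lo_le hσ u).1 (le_of_eq ht.symm)
    have a2' : ‖yy c u‖ ≤ Real.sqrt R * t := by
      have h1 := mul_le_mul_of_nonneg_left a2 hq0.le
      rwa [← mul_assoc, hσ1, one_mul] at h1
    have a3' : |u.2.2| ≤ R * t := by
      have h1 := mul_le_mul_of_nonneg_left a3 R0.le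
      have h2 : R * (sR R ^ 2 * |u.2.2|) = |u.2.2| := by
        calc R * (sR R ^ 2 * |u.2.2|) = (Real.sqrt R * Real.sqrt R) * (sR R ^ 2 * |u.2.2|) := by
              rw [hqq]
          _ = (Real.sqrt R * sR R) ^ 2 * |u.2.2| := by ring
          _ = |u.2.2| := by rw [hσ1, one_pow, one_mul]
      rwa [h2] at h1
    have hc' : ‖η' - c‖ ≤ D * s' := by rw [norm_sub_rev]; exact hc
    obtain ⟨b1, b2⟩ := shift_bound u a1 a2' a3' hc'
    rw [← ht, St_le s'0 r0 R0]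
    refine ⟨b1.trans ?_, b2.trans ?_, a3'.trans ?_⟩
    · have h1 : Real.sqrt R * t * (D * s') = (Real.sqrt R * s') * (D * t) := by ring
      have h2 : R * t * (D * s') ^ 2 = (R * s' ^ 2) * (D ^ 2 * t) := by ring
      have h3 : (Real.sqrt R * s') * (D * t) ≤ r * (D * t) :=
        mul_le_mul_of_nonneg_right hqr (by positivity)
      have h4 : (R * s' ^ 2) * (D ^ 2 * t) ≤ r * (D ^ 2 * t) :=
        mul_le_mul_of_nonneg_right hRs' (by positivity)
      have h5 : t ≤ r * t := by nlinarith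
      have h6 : r * (K * t) = r * t + r * (D * t) + r * (D ^ 2 * t) + r * (D * t) := by
        rw [hK]
        ring
      have h7 : 0 ≤ r * (D * t) := by positivity
      rw [h1, h2]
      linarith
    · have h1 : Real.sqrt R * t ≤ R * s' * t := mul_le_mul_of_nonneg_right hqs' t0
      have h2 : 2 * (R * t) * (D * s') = R * s' * (2 * D * t) := by ring
      have h3 : R * s' * (K * t) = R * s' * t + R * s' * (2 * D * t) + R * s' * (D ^ 2 * t) := by
        rw [hK]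
        ring
      have h4 : 0 ≤ R * s' * (D ^ 2 * t) := by positivity
      rw [h2]
      linarith
    · exact mul_le_mul_of_nonneg_left (by nlinarith) R0.le
  -- the pointwise inequality
  obtain ⟨P, hP⟩ : ∃ P, P = ‖St η' s' r R (z' - z₀)‖ := ⟨_, rfl⟩
  have P0 : 0 ≤ P := by rw [hP]; exact norm_nonneg _
  have main : ∀ (ρ : ℝ) (θ : E m) (ζ : Z m), 0 < ρ →
      (∀ z : Z m, ‖ρ⁻¹ • yy θ (z - ζ)‖ ≤ ‖St η s r R₁ (z - z₀)‖ ∨
        ‖ρ⁻¹ • yy θ (z - ζ)‖ ≤ ‖Lo c (sR R) (z - z')‖) →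
      ∫⁻ z, ENNReal.ofReal (wt (N + m + 3) (St η s r R₁ (z - z₀)) *
        wt (N + m + 3) (Lo c (sR R) (z - z'))) ≤
      ((K ^ N).toNNReal * C : ℝ≥0) * ENNReal.ofReal (ρ ^ m * R₁) *
        ENNReal.ofReal (wt N (St η' s' r R (z' - z₀))) := by
    intro ρ θ ζ hρ hρz
    have hpt : ∀ z : Z m, ENNReal.ofReal (wt (N + m + 3) (St η s r R₁ (z - z₀)) *
        wt (N + m + 3) (Lo c (sR R) (z - z'))) ≤
        ENNReal.ofReal (K ^ N * ((1 + P) ^ N)⁻¹) *
          (ph1 2 (z.1 + Af c z' z.2) * (ph1 (m + 1) (ρ⁻¹ • (z.2.1 + Bf θ ζ z.2.2)) *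
            ph1 2 (R₁⁻¹ • (z.2.2 + -z₀.2.2)))) := by
      intro z
      obtain ⟨α, hα⟩ : ∃ α, α = ‖St η s r R₁ (z - z₀)‖ := ⟨_, rfl⟩
      obtain ⟨β, hβ⟩ : ∃ β, β = ‖Lo c (sR R) (z - z')‖ := ⟨_, rfl⟩
      have α0 : 0 ≤ α := by rw [hα]; exact norm_nonneg _
      have β0 : 0 ≤ β := by rw [hβ]; exact norm_nonneg _
      have k1 : P ≤ K * α + K * β := by
        have h1 : z' - z₀ = (z - z₀) + (z' - z) := by abel
        have h2 := St_sub (η := η') (s := s') (r := r) (R := R) (z - z₀) (z' - z)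
        rw [← h1, ← hP] at h2
        have h3 := cmp1 (z - z₀)
        have h4 := cmp2 (z' - z)
        have h5 : ‖Lo c (sR R) (z' - z)‖ = β := by
          rw [hβ]
          have h6 : Lo c (sR R) (z' - z) = -Lo c (sR R) (z - z') := by
            unfold Lo
            ext1
            · show (z' - z).1 + ⟪(z' - z).2.1, c⟫ + (z' - z).2.2 * ‖c‖ ^ 2 =
                -((z - z').1 + ⟪(z - z').2.1, c⟫ + (z - z').2.2 * ‖c‖ ^ 2)
              have a1 : (z' - z).1 = -(z - z').1 := by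
                show z'.1 - z.1 = -(z.1 - z'.1)
                ring
              have a2 : (z' - z).2.1 = -(z - z').2.1 := by
                show z'.2.1 - z.2.1 = -(z.2.1 - z'.2.1)
                abel
              have a3 : (z' - z).2.2 = -(z - z').2.2 := by
                show z'.2.2 - z.2.2 = -(z.2.2 - z'.2.2)
                ring
              rw [a1, a2, a3, inner_neg_left]
              ring
            · ext1
              · show sR R • ((z' - z).2.1 + (2 * (z' - z).2.2) • c) =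
                  -(sR R • ((z - z').2.1 + (2 * (z - z').2.2) • c))
                have a2 : (z' - z).2.1 = -(z - z').2.1 := by
                  show z'.2.1 - z.2.1 = -(z.2.1 - z'.2.1)
                  abel
                have a3 : (z' - z).2.2 = -(z - z').2.2 := by
                  show z'.2.2 - z.2.2 = -(z.2.2 - z'.2.2)
                  ring
                rw [a2, a3, ← smul_neg, neg_add, mul_neg, neg_smul]
              · show sR R ^ 2 * (z' - z).2.2 = -(sR R ^ 2 * (z - z').2.2)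
                show sR R ^ 2 * (z'.2.2 - z.2.2) = -(sR R ^ 2 * (z.2.2 - z'.2.2))
                ring
          rw [h6, norm_neg]
        rw [h5] at h4
        rw [← hα] at h3
        linarith
      have k2 := wt_tri N hK1 α0 β0 P0 k1
      obtain ⟨-, -, a3⟩ := (St_le s0 r0 R10 (z - z₀)).1 (le_of_eq hα.symm)
      obtain ⟨b1, -, -⟩ := (Lo_le hσ (z - z')).1 (le_of_eq hβ.symm)
      have k3 : ‖R₁⁻¹ • (z.2.2 + -z₀.2.2)‖ ≤ α := by
        have e1 : (z - z₀).2.2 = z.2.2 + -z₀.2.2 := by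
          show z.2.2 - z₀.2.2 = _
          ring
        rw [← e1, norm_smul, norm_inv, Real.norm_of_nonneg R10.le, Real.norm_eq_abs,
          inv_mul_le_iff₀ R10]
        exact a3
      have k4 : ‖z.1 + Af c z' z.2‖ ≤ β := by
        rw [← vv_sub, Real.norm_eq_abs]
        exact b1
      have k5 : ‖ρ⁻¹ • (z.2.1 + Bf θ ζ z.2.2)‖ ≤ α ∨ ‖ρ⁻¹ • (z.2.1 + Bf θ ζ z.2.2)‖ ≤ β := by
        rw [← yy_sub, hα, hβ]
        exact hρz z
      have k6 := wt_prod m (norm_nonneg (z.1 + Af c z' z.2))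
        (norm_nonneg (ρ⁻¹ • (z.2.1 + Bf θ ζ z.2.2))) (norm_nonneg (R₁⁻¹ • (z.2.2 + -z₀.2.2)))
        k4 k3 k5
      have k7 : wt (N + m + 3) (St η s r R₁ (z - z₀)) * wt (N + m + 3) (Lo c (sR R) (z - z')) =
          (((1 + α) ^ N)⁻¹ * ((1 + β) ^ N)⁻¹) *
            (((1 + α) ^ (m + 3))⁻¹ * ((1 + β) ^ (m + 3))⁻¹) := by
        have g7 : ∀ x : ℝ, ((1 + x) ^ (N + m + 3))⁻¹ = ((1 + x) ^ N)⁻¹ * ((1 + x) ^ (m + 3))⁻¹ := by
          intro x
          rw [← mul_inv, ← pow_add, add_assoc]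
        unfold wt
        rw [← hα, ← hβ, g7, g7]
        ring
      rw [k7]
      unfold ph1
      rw [← ENNReal.ofReal_mul (by positivity), ← ENNReal.ofReal_mul (by positivity),
        ← ENNReal.ofReal_mul (by positivity)]
      refine ENNReal.ofReal_le_ofReal ?_
      exact mul_le_mul k2 k6 (by positivity) (by positivity)
    refine (lintegral_mono hpt).trans ?_
    rw [lintegral_const_mul' _ _ ENNReal.ofReal_ne_top]
    have k8 := hC ρ R₁ (Af c z') (Bf θ ζ) (-z₀.2.2) hρ R10 (Af_cont c z') (Bf_cont θ ζ)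
    refine (mul_le_mul_right k8 _).trans (le_of_eq ?_)
    have k9 : ENNReal.ofReal (K ^ N * ((1 + P) ^ N)⁻¹) =
        ((K ^ N).toNNReal : ℝ≥0∞) * ENNReal.ofReal (wt N (St η' s' r R (z' - z₀))) := by
      rw [ENNReal.ofReal_mul (by positivity)]
      unfold wt
      rw [← hP]
      rfl
    rw [k9, ENNReal.coe_mul]
    ring
  rcases le_total (R₁ * s) (Real.sqrt R) with h | h
  · rw [min_eq_left h]
    refine main (R₁ * s) η z₀ (by positivity) ?_
    intro z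
    left
    obtain ⟨-, a2, -⟩ := (St_le s0 r0 R10 (z - z₀)).1 le_rfl
    rw [norm_smul, norm_inv, Real.norm_of_nonneg (by positivity),
      inv_mul_le_iff₀ (by positivity)]
    exact a2
  · rw [min_eq_right h]
    refine main (Real.sqrt R) c z' hq0 ?_
    intro z
    right
    obtain ⟨-, a2, -⟩ := (Lo_le hσ (z - z')).1 le_rfl
    rw [norm_smul, norm_inv, Real.norm_of_nonneg hq0.le]
    have h1 : (Real.sqrt R)⁻¹ = sR R := rfl
    rw [h1]
    exact a2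

end main

end Pool.Agent.H78.FD.INXx

namespace Pool.Agent.H78.FD

open Pool.Agent.H83.G Pool.Agent.H83.FD

theorem pf_INX : T_INX := INXx.pf_INX

end Pool.Agent.H78.FD
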